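import Pool.Agent.H.MP_7a056a_gt.B

namespace Pool.Agent.Results.MP_7a056a_gt.Yes

open CategoryTheory Pool.Agent.H.MP_6bfe6b_gt Pool.Agent.H.MP_92e33a_gt Pool.Agent.H.MP_7a056a_gt

universe u

theorem result (F : CompHaus.{u} ⥤ CompHaus.{u}) (he : Epimorphic F) (hc : ContinuousFunctor F)
    (hp : PreservesPreimages F) (hs : FinitelySquareSkeletal F) : SkeletalFunctor F :=
  yes he hc hp hs

end Pool.Agent.Results.MP_7a056a_gt.Yes
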